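import Pool.Agent.Lib.MP_8d7a8d_co.Exist

namespace Pool.Agent.Results.MP_8d7a8d_co.MinDegreeNine

open Pool.Agent.Lib.MP_8d7a8d_co

/-- There is a constant `d` (one can take `d = 9`) such that on every finite linear hypergraph of
rank 3 with minimum degree at least `d`, Enforcer wins as last player: Avoider moves first iff the
number of vertices is even. -/
theorem result : ∃ d : ℕ, d ≤ 9 ∧
    ∀ (V : Type) [Fintype V] [DecidableEq V] [Nonempty V] (E : Finset (Finset V)),
      (∀ e ∈ E, e.card ≤ 3) →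
      (∀ e ∈ E, ∀ f ∈ E, e ≠ f → (e ∩ f).card ≤ 1) →
      (∀ v : V, d ≤ (E.filter (fun e => v ∈ e)).card) →
      EnforcerWins E Finset.univ ∅ (decide (Even (Fintype.card V))) := by
  refine ⟨9, le_rfl, ?_⟩
  intro V _ _ _ E hr hlin hdeg
  refine main ?_ hr hdeg
  intro e he f hf x y hxy hxe hye hxf hyf
  by_contra hne
  have h := hlin e he f hf hne
  rw [Finset.card_le_one] at h
  exact hxy (h x (Finset.mem_inter.mpr ⟨hxe, hxf⟩) y (Finset.mem_inter.mpr ⟨hye, hyf⟩))

end Pool.Agent.Results.MP_8d7a8d_co.MinDegreeNine
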